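import Mathlib
import Pool.Agent.Q160.ETR3

set_option autoImplicit false

/-!
# Delta-Wye parameters are not determined by the intersection numbers

Two exactly triply regular symmetric association schemes on 16 points with 9 classes, with equal
intersection numbers and different Delta-Wye parameters: the classes `{g, -g}` of the group
`(ℤ/4)^2`, and the classes `{(v, w), (v, v + w)}` of the group `(ℤ/2)^2 × (ℤ/2)^2`.
-/

namespace Pool.Agent.Results.MP_711634_co.ParametersDiffer

open Pool.Agent.Q160.ETR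

/-- There are two exactly triply regular symmetric association schemes (on 16 points) with equal
intersection numbers under the given orderings `A_i`, `A'_i` and with matched primitive idempotents
`E_r = ∑ c_{r,i} A_i`, `E'_r = ∑ c_{r,i} A'_i`, whose Delta-Wye parameters (they exist) differ at an
admissible place. -/
theorem result :
    ∃ (S : Scheme (ZMod 4 × ZMod 4) (Fin 10))
      (S' : Scheme ((ZMod 2 × ZMod 2) × (ZMod 2 × ZMod 2)) (Fin 10))
      (c : Fin 10 → Fin 10 → ℝ) (q : Fin 10 → Fin 10 → Fin 10 → ℝ),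
      S.p = S'.p ∧ S.diag = S'.diag ∧
      S.ExactlyTriplyRegular ∧ S'.ExactlyTriplyRegular ∧
      S.PrimitiveIdempotents (S.combo c) ∧ S'.PrimitiveIdempotents (S'.combo c) ∧
      KreinParameters (S.combo c) q ∧ KreinParameters (S'.combo c) q ∧
      (∃ σ, S.DeltaWye (S.combo c) q σ) ∧ (∃ σ', S'.DeltaWye (S'.combo c) q σ') ∧
      ∀ σ σ', S.DeltaWye (S.combo c) q σ → S'.DeltaWye (S'.combo c) q σ' →
        ∃ i j k r s t, 0 < S.p i j k ∧ 0 < q r s t ∧ σ i j k r s t ≠ σ' i j k r s t := by
  refine ⟨S1, S0, co QQ 16, fun r s t => (pp r s t : ℝ), rfl, rfl, good1.etr, good0.etr,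
    good1.idem, good0.idem, good1.kreinP, good0.kreinP, good1.exists_dw, good0.exists_dw,
    fun σ σ' hσ hσ' => ?_⟩
  refine ⟨4, 6, 8, 8, 6, 4, ?_, ?_, fun he => ?_⟩
  · show 0 < pp 4 6 8
    decide +kernel
  · show (0 : ℝ) < (pp 8 6 4 : ℝ)
    exact_mod_cast (by decide +kernel : 0 < pp 8 6 4)
  · have h1 := good1.sigma 0 hσ (i := 4) (j := 6) (k := 8) (r := 8) (s := 6) (t := 4)
      (show 0 < pp 4 6 8 by decide +kernel) (show 0 < pp 8 6 4 by decide +kernel)
    have h0 := good0.sigma 0 hσ' (i := 4) (j := 6) (k := 8) (r := 8) (s := 6) (t := 4)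
      (show 0 < pp 4 6 8 by decide +kernel) (show 0 < pp 8 6 4 by decide +kernel)
    rw [he, zz1] at h1
    have hn : nn S1 QQ 8 6 4 = nn S0 QQ 8 6 4 := rfl
    rw [hn, h0, zz0] at h1
    norm_num at h1

end Pool.Agent.Results.MP_711634_co.ParametersDiffer
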